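import Pool.Agent.T9h23.Sh.S2

/-!
# The S-integral weak Hall conjecture: few exceptional pairs, uniformly in `S`, `a` and `D`

For every `ε > 0` there is `η > 0` such that for `T ≤ Y ≤ T ^ 3` at most `C T ^ (1 - η) Y ^ (1 / 3)` of the pairs `(x, y)` of
integers with `|x| ≤ T ^ 2`, `|y| ≤ Y` violate the inequality of the question, with the constant `1`, for some finite set
`S` of primes, some `S`-unit integer `a` and some `D ≠ 0` with `y ^ 2 = x ^ 3 + a D` (primitive or not). In particular for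
all but `C Y ^ (1 - η)` of the integers `|y| ≤ Y` the inequality holds for ALL `x` with `|x| ≤ Y ^ (4 / 3)` and all
`S`, `a`, `D`.

* An exceptional pair has `k = y ^ 2 - x ^ 3` with `rad (k) ≤ N_S |D| < T ^ (1 / (1 + ε))` (`T9h23.Sh.rad_le`), and the
  number of such `|k| ≤ 2 T ^ 6` is at most `C T ^ (1 / (1 + ε) + ε')` (`T9h23.Sh.rad_count`).
* For each `k ≠ 0` the number of the integral points of `y ^ 2 = x ^ 3 + k` with `|y| ≤ Y` and `x` at most a power of `Y` is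
  at most `C Y ^ (1 / 3 + ε')`, uniformly in `k` (`T9h23.Sh.points`, the determinant method of Bombieri and Pila,
  `Pool.Agent.N445.VW.bp`).
-/

set_option autoImplicit false

namespace Pool.Agent.Results.MP_2155e3_nt.FewExceptionalPairs

open Finset

/-- the inequality of the question, with the constant `1`, fails at `(x, y)` for some finite set `S` of primes, some
`S`-unit integer `a` and some nonzero `D` with `y ^ 2 = x ^ 3 + a D` -/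
def Fails (ε : ℝ) (x y : ℤ) : Prop := ∃ (S : Finset ℕ) (a D : ℤ), (∀ p ∈ S, p.Prime) ∧ a ≠ 0 ∧ D ≠ 0 ∧
  (∀ p : ℕ, p.Prime → (p : ℤ) ∣ a → p ∈ S) ∧ y ^ 2 = x ^ 3 + a * D ∧
  ((∏ p ∈ S, (p : ℝ)) * |(D : ℝ)|) ^ (1 + ε) < max (|(x : ℝ)| ^ ((1 : ℝ) / 2)) (|(y : ℝ)| ^ ((1 : ℝ) / 3))

theorem fails_ex (ε : ℝ) (hε : 0 < ε) (x y : ℤ) (h : Fails ε x y) : T9h23.Sh.Ex ε x y := by
  obtain ⟨S, a, D, hS, ha, hD, haS, heq, hlt⟩ := h
  have hk : y ^ 2 - x ^ 3 = a * D := by rw [heq]; ring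
  refine ⟨?_, ?_⟩
  · intro h1
    rw [h1, sub_self] at hk
    exact mul_ne_zero ha hD hk.symm
  · refine lt_of_le_of_lt ?_ hlt
    rw [hk]
    apply Real.rpow_le_rpow (Nat.cast_nonneg _) _ (by linarith)
    have h1 := T9h23.Sh.rad_le S hS a D ha hD haS
    have h2 : (Pool.Agent.H785R2.ABC.rad (a * D).natAbs : ℝ) ≤ (((∏ p ∈ S, p) * D.natAbs : ℕ) : ℝ) := by
      exact_mod_cast h1
    rw [Nat.cast_mul, Nat.cast_prod, Nat.cast_natAbs, Int.cast_abs] at h2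
    exact h2

/-- **Few exceptional pairs.** -/
theorem result (ε : ℝ) (hε : 0 < ε) : ∃ η : ℝ, 0 < η ∧ ∃ C : ℝ,
    (∀ T Y : ℕ, 1 ≤ T → T ≤ Y → Y ≤ T ^ 3 →
      ({p : ℤ × ℤ | |p.1| ≤ (T : ℤ) ^ 2 ∧ |p.2| ≤ (Y : ℤ) ∧ Fails ε p.1 p.2}.ncard : ℝ) ≤
        C * (T : ℝ) ^ (1 - η) * (Y : ℝ) ^ ((1 : ℝ) / 3)) ∧
    (∀ Y : ℕ, 1 ≤ Y → ({y : ℤ | |y| ≤ (Y : ℤ) ∧ ∃ x : ℤ, |x| ^ 3 ≤ (Y : ℤ) ^ 4 ∧ Fails ε x y}.ncard : ℝ) ≤
      C * (Y : ℝ) ^ (1 - η)) := by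
  classical
  obtain ⟨C, hC, hmain⟩ := T9h23.Sh.pairs ε hε
  obtain ⟨θ, hθ⟩ : ∃ θ : ℝ, θ = ε / (2 * (1 + ε)) := ⟨_, rfl⟩
  have hθ0 : 0 < θ := by rw [hθ]; positivity
  have hθ1 : θ ≤ 1 := by rw [hθ, div_le_one (by positivity)]; linarith
  rw [← hθ] at hmain
  refine ⟨2 * θ / 3, by positivity, 2 * C, ?_, ?_⟩
  · intro T Y hT hTY hY
    have hTr : (1 : ℝ) ≤ T := by exact_mod_cast hT
    refine le_trans ?_ ((hmain T Y hT hTY hY).trans ?_)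
    · rw [← Set.ncard_coe_finset]
      refine Nat.cast_le.2 (Set.ncard_le_ncard ?_ (finite_toSet _))
      rintro p ⟨h1, h2, h3⟩
      rw [mem_coe, mem_filter, T9h23.Sh.mem_BB]
      exact ⟨⟨h1, h2⟩, fails_ex ε hε _ _ h3⟩
    · have h1 : (T : ℝ) ^ (1 - θ) ≤ (T : ℝ) ^ (1 - 2 * θ / 3) := Real.rpow_le_rpow_of_exponent_le hTr (by linarith)
      have h2 : 0 ≤ (T : ℝ) ^ (1 - θ) := by positivity
      have h3 : 0 ≤ (Y : ℝ) ^ ((1 : ℝ) / 3) := by positivity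
      apply mul_le_mul_of_nonneg_right _ h3
      nlinarith
  · intro Y hY
    have hYr : (1 : ℝ) ≤ Y := by exact_mod_cast hY
    have hY0 : (0 : ℝ) < Y := by linarith
    obtain ⟨u, hu⟩ : ∃ u : ℝ, u = (Y : ℝ) ^ ((2 : ℝ) / 3) := ⟨_, rfl⟩
    have hu1 : 1 ≤ u := by rw [hu]; exact Real.one_le_rpow hYr (by norm_num)
    have hu3 : u ^ 3 = (Y : ℝ) ^ 2 := by
      rw [hu, ← Real.rpow_natCast, ← Real.rpow_mul hY0.le, ← Real.rpow_natCast]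
      norm_num
    have huY : u ≤ Y := by
      calc u ≤ (Y : ℝ) ^ (1 : ℝ) := by rw [hu]; exact Real.rpow_le_rpow_of_exponent_le hYr (by norm_num)
        _ = Y := Real.rpow_one _
    obtain ⟨T, hT⟩ : ∃ T : ℕ, T = ⌈u⌉₊ := ⟨_, rfl⟩
    have hT1 : u ≤ T := by rw [hT]; exact Nat.le_ceil u
    have hT2 : (T : ℝ) ≤ 2 * u := by
      have : (T : ℝ) < u + 1 := by rw [hT]; exact Nat.ceil_lt_add_one (by linarith)
      linarith
    have hT3 : T ≤ Y := by rw [hT]; exact Nat.ceil_le.2 huY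
    have hT4 : 1 ≤ T := by
      have : (1 : ℝ) ≤ T := hu1.trans hT1
      exact_mod_cast this
    have hT5 : Y ≤ T ^ 3 := by
      have : (Y : ℝ) ≤ (T : ℝ) ^ 3 := by
        calc (Y : ℝ) ≤ (Y : ℝ) ^ 2 := le_self_pow₀ hYr (by norm_num)
          _ = u ^ 3 := hu3.symm
          _ ≤ (T : ℝ) ^ 3 := by gcongr
      exact_mod_cast this
    have h0 := hmain T Y hT4 hT3 hT5
    have hsub : {y : ℤ | |y| ≤ (Y : ℤ) ∧ ∃ x : ℤ, |x| ^ 3 ≤ (Y : ℤ) ^ 4 ∧ Fails ε x y} ⊆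
        ((((T9h23.Sh.BB T Y).filter (fun p => T9h23.Sh.Ex ε p.1 p.2)).image (fun p : ℤ × ℤ => p.2) : Finset ℤ) : Set ℤ) := by
      rintro y ⟨hy, x, hx, hF⟩
      rw [mem_coe, mem_image]
      refine ⟨(x, y), ?_, rfl⟩
      rw [mem_filter, T9h23.Sh.mem_BB]
      refine ⟨⟨?_, hy⟩, fails_ex ε hε _ _ hF⟩
      have h1 : |(x : ℝ)| ^ 3 ≤ (Y : ℝ) ^ 4 := by exact_mod_cast hx
      have h2 : |(x : ℝ)| ^ 3 ≤ ((T : ℝ) ^ 2) ^ 3 := by
        calc |(x : ℝ)| ^ 3 ≤ (Y : ℝ) ^ 4 := h1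
          _ = (u ^ 3) ^ 2 := by rw [hu3]; ring
          _ = (u ^ 2) ^ 3 := by ring
          _ ≤ ((T : ℝ) ^ 2) ^ 3 := by gcongr
      have h3 : |(x : ℝ)| ≤ (T : ℝ) ^ 2 := le_of_pow_le_pow_left₀ (n := 3) (by norm_num) (by positivity) h2
      have h4 : |x| ≤ (T : ℤ) ^ 2 := by exact_mod_cast h3
      exact h4
    have h1 : ({y : ℤ | |y| ≤ (Y : ℤ) ∧ ∃ x : ℤ, |x| ^ 3 ≤ (Y : ℤ) ^ 4 ∧ Fails ε x y}.ncard : ℝ) ≤
        (((T9h23.Sh.BB T Y).filter (fun p => T9h23.Sh.Ex ε p.1 p.2)).card : ℝ) := by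
      refine Nat.cast_le.2 ?_
      refine (Set.ncard_le_ncard hsub (finite_toSet _)).trans ?_
      rw [Set.ncard_coe_finset]
      exact card_image_le
    refine h1.trans (h0.trans ?_)
    have h2 : (T : ℝ) ^ (1 - θ) ≤ 2 * u ^ (1 - θ) := by
      calc (T : ℝ) ^ (1 - θ) ≤ (2 * u) ^ (1 - θ) := Real.rpow_le_rpow (by positivity) hT2 (by linarith)
        _ = 2 ^ (1 - θ) * u ^ (1 - θ) := Real.mul_rpow (by norm_num) (by linarith)
        _ ≤ 2 ^ (1 : ℝ) * u ^ (1 - θ) := by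
            have h3 : 0 ≤ u ^ (1 - θ) := by positivity
            apply mul_le_mul_of_nonneg_right _ h3
            exact Real.rpow_le_rpow_of_exponent_le (by norm_num) (by linarith)
        _ = _ := by rw [Real.rpow_one]
    have h3 : u ^ (1 - θ) * (Y : ℝ) ^ (1 / 3 : ℝ) = (Y : ℝ) ^ (1 - 2 * θ / 3) := by
      rw [hu, ← Real.rpow_mul hY0.le, ← Real.rpow_add hY0]
      congr 1
      ring
    calc C * (T : ℝ) ^ (1 - θ) * (Y : ℝ) ^ (1 / 3 : ℝ) ≤ C * (2 * u ^ (1 - θ)) * (Y : ℝ) ^ (1 / 3 : ℝ) := by gcongr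
      _ = 2 * C * (u ^ (1 - θ) * (Y : ℝ) ^ (1 / 3 : ℝ)) := by ring
      _ = _ := by rw [h3]

end Pool.Agent.Results.MP_2155e3_nt.FewExceptionalPairs
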